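import Mathlib
import Pool.Agent.Helper83.CK.St

/-! Project CK module H: omega-Jonsson functions (Erdos-Hajnal), proof of Galvin and Prikry. -/

set_option autoImplicit false

namespace Pool.Agent.Helper93.CK
open Pool.Agent.Helper83.CK Cardinal Set
universe u

/-- equal from some member on -/
def Rr {K : Type u} [LinearOrder K] (s t : Set K) : Prop := ∃ ξ ∈ s, s ∩ Ici ξ = t ∩ Ici ξ

lemma Rr_refl {K : Type u} [LinearOrder K] {s : Set K} (h : s.Nonempty) : Rr s s := by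
  obtain ⟨x, hx⟩ := h
  exact ⟨x, hx, rfl⟩

lemma Rr_symm {K : Type u} [LinearOrder K] {s t : Set K} (h : Rr s t) : Rr t s := by
  obtain ⟨x, hx, h⟩ := h
  have : x ∈ t ∩ Ici x := h ▸ ⟨hx, le_refl x⟩
  exact ⟨x, this.1, h.symm⟩

lemma cut_le {K : Type u} [LinearOrder K] {s t : Set K} {x y : K} (h : s ∩ Ici x = t ∩ Ici x)
    (hxy : x ≤ y) : s ∩ Ici y = t ∩ Ici y := by
  ext z
  have h1 := Set.ext_iff.1 h z
  simp only [mem_inter_iff, mem_Ici] at h1 ⊢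
  constructor
  · rintro ⟨h2, h3⟩
    exact ⟨(h1.1 ⟨h2, hxy.trans h3⟩).1, h3⟩
  · rintro ⟨h2, h3⟩
    exact ⟨(h1.2 ⟨h2, hxy.trans h3⟩).1, h3⟩

lemma Rr_trans {K : Type u} [LinearOrder K] {s t w : Set K} (h : Rr s t) (h' : Rr t w) :
    Rr s w := by
  obtain ⟨x, hx, h⟩ := h
  obtain ⟨y, hy, h'⟩ := h'
  rcases le_total x y with hxy | hxy
  · refine ⟨y, ?_, (cut_le h hxy).trans h'⟩
    have : y ∈ s ∩ Ici x := h ▸ ⟨hy, hxy⟩
    exact this.1
  · exact ⟨x, hx, h.trans (cut_le h' hxy)⟩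

/-- the setoid of nonempty sets -/
def Sd (K : Type u) [LinearOrder K] : Setoid {s : Set K // s.Nonempty} where
  r s t := Rr s.1 t.1
  iseqv := ⟨fun s => Rr_refl s.2, fun h => Rr_symm h, fun h h' => Rr_trans h h'⟩

lemma exists_rep (K : Type u) [LinearOrder K] : ∃ rep : Set K → Set K,
    (∀ s, s.Nonempty → Rr s (rep s)) ∧ ∀ s t, s.Nonempty → t.Nonempty → Rr s t → rep s = rep t := by
  classical
  refine ⟨fun s => if h : s.Nonempty then
    ((Quotient.out (Quotient.mk (Sd K) ⟨s, h⟩) : {s : Set K // s.Nonempty}) : Set K) else s,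
    ?_, ?_⟩
  · intro s hs
    simp only [dif_pos hs]
    have h := Quotient.exact (Quotient.out_eq (Quotient.mk (Sd K) ⟨s, hs⟩))
    exact Rr_symm h
  · intro s t hs ht h
    simp only [dif_pos hs, dif_pos ht]
    have : Quotient.mk (Sd K) ⟨s, hs⟩ = Quotient.mk (Sd K) ⟨t, ht⟩ := Quotient.sound h
    rw [this]

lemma exists_F0 (K : Type u) [LinearOrder K] [Nonempty K] (rep : Set K → Set K) :
    ∃ F : Set K → K, ∀ (s : Set K) (ξ m : K),
      IsLeast {ξ | ξ ∈ s ∧ s ∩ Ici ξ = rep s ∩ Ici ξ} ξ → IsGreatest (rep s ∩ Iio ξ) m →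
      F s = m := by
  classical
  refine ⟨fun s => if h : ∃ m ξ, IsLeast {ξ | ξ ∈ s ∧ s ∩ Ici ξ = rep s ∩ Ici ξ} ξ ∧
    IsGreatest (rep s ∩ Iio ξ) m then h.choose else Classical.arbitrary K, ?_⟩
  intro s ξ m h1 h2
  have h : ∃ m ξ, IsLeast {ξ | ξ ∈ s ∧ s ∩ Ici ξ = rep s ∩ Ici ξ} ξ ∧
    IsGreatest (rep s ∩ Iio ξ) m := ⟨m, ξ, h1, h2⟩
  simp only [dif_pos h]
  obtain ⟨ξ', h3, h4⟩ := h.choose_spec
  have e : ξ' = ξ := h3.unique h1
  rw [e] at h4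
  exact h4.unique h2

lemma main_claim (K : Type u) [LinearOrder K] [Nonempty K] : ∃ F : Set K → K,
    ∃ A : Set K, #A = #K ∧ ∃ a : K, ∀ B ⊆ A, #B = #K → ∀ c ∈ A, a < c →
      ∃ s ⊆ B, #s = ℵ₀ ∧ F s = c := by
  classical
  obtain ⟨rep, hr1, hr2⟩ := exists_rep K
  obtain ⟨F, hF⟩ := exists_F0 K rep
  refine ⟨F, ?_⟩
  by_contra hcon
  push Not at hcon
  -- the next step
  have step : ∀ p : {A : Set K // #A = #K} × K, ∃ q : {A : Set K // #A = #K} × K,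
      q.1.1 ⊆ p.1.1 ∧ q.2 ∈ p.1.1 ∧ p.2 < q.2 ∧ ∀ s ⊆ q.1.1, #s = ℵ₀ → F s ≠ q.2 := by
    rintro ⟨⟨A, hA⟩, a⟩
    obtain ⟨B, hB, hBK, c, hc, hac, h⟩ := hcon A hA a
    exact ⟨⟨⟨B, hBK⟩, c⟩, hB, hc, hac, h⟩
  choose nx hnx using step
  let st : ℕ → {A : Set K // #A = #K} × K := fun n =>
    Nat.rec ((⟨univ, mk_univ⟩ : {A : Set K // #A = #K}), Classical.arbitrary K) (fun _ p => nx p) n
  have st_succ : ∀ n, st (n + 1) = nx (st n) := fun n => rfl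
  let a : ℕ → K := fun n => (st (n + 1)).2
  have hsub1 : ∀ n, (st (n + 1)).1.1 ⊆ (st n).1.1 := fun n => (hnx (st n)).1
  have hanti : Antitone (fun n => (st n).1.1) := antitone_nat_of_succ_le hsub1
  have haA : ∀ n, a n ∈ (st n).1.1 := fun n => (hnx (st n)).2.1
  have hmono : StrictMono a := strictMono_nat_of_lt_succ (fun n => (hnx (st (n + 1))).2.2.1)
  have hne : ∀ n, ∀ s ⊆ (st (n + 1)).1.1, #s = ℵ₀ → F s ≠ a n := fun n => (hnx (st n)).2.2.2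
  let y : ℕ → Set K := fun n => a '' Ioi n
  have hyA : ∀ n, y n ⊆ (st (n + 1)).1.1 := by
    rintro n _ ⟨m, hm, rfl⟩
    exact hanti (Nat.succ_le_of_lt hm) (haA m)
  have hycard : ∀ n, #(y n) = ℵ₀ := by
    intro n
    have h1 : (Ioi n).Infinite := Set.Ioi_infinite n
    have h2 : (y n).Infinite := h1.image hmono.injective.injOn
    have h3 : (y n).Countable := (Set.to_countable _).image _
    haveI := h2.to_subtype
    haveI := h3.to_subtype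
    exact Cardinal.mk_eq_aleph0 _
  have hyne : ∀ n, (y n).Nonempty := fun n => ⟨a (n + 1), n + 1, Nat.lt_succ_self n, rfl⟩
  have hcut : ∀ n k, n < k → y n ∩ Ici (a k) = y 0 ∩ Ici (a k) := by
    intro n k hnk
    ext z
    simp only [mem_inter_iff, mem_Ici]
    constructor
    · rintro ⟨⟨m, hm, rfl⟩, h2⟩
      exact ⟨⟨m, lt_of_le_of_lt (Nat.zero_le _) hm, rfl⟩, h2⟩
    · rintro ⟨⟨m, hm, rfl⟩, h2⟩
      exact ⟨⟨m, lt_of_lt_of_le hnk (hmono.le_iff_le.1 h2), rfl⟩, h2⟩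
  have hrep : ∀ n, rep (y n) = rep (y 0) := by
    intro n
    refine hr2 _ _ (hyne n) (hyne 0) ⟨a (n + 1), ⟨n + 1, Nat.lt_succ_self n, rfl⟩,
      hcut n (n + 1) (Nat.lt_succ_self n)⟩
  obtain ⟨ξ, ⟨N, hN, rfl⟩, hξ⟩ := hr1 _ (hyne 0)
  -- the contradiction
  refine hne N (y N) (hyA N) (hycard N) (hF _ (a (N + 1)) _ ⟨⟨⟨N + 1, Nat.lt_succ_self N, rfl⟩,
    ?_⟩, ?_⟩ ⟨⟨?_, ?_⟩, ?_⟩)
  · rw [hrep, hcut N (N + 1) (Nat.lt_succ_self N)]
    exact cut_le hξ (hmono (Nat.lt_succ_self N)).le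
  · rintro x ⟨⟨m, hm, rfl⟩, -⟩
    exact hmono.le_iff_le.2 (Nat.succ_le_of_lt hm)
  · rw [hrep]
    have : a N ∈ rep (y 0) ∩ Ici (a N) := hξ ▸ ⟨⟨N, hN, rfl⟩, le_refl _⟩
    exact this.1
  · exact hmono (Nat.lt_succ_self N)
  · rintro x ⟨hx1, hx2⟩
    rw [hrep] at hx1
    rcases lt_or_ge x (a N) with h | h
    · exact h.le
    · have : x ∈ y 0 ∩ Ici (a N) := hξ ▸ ⟨hx1, h⟩
      obtain ⟨⟨m, hm, rfl⟩, -⟩ := this
      exact hmono.le_iff_le.2 (Nat.lt_succ_iff.1 (hmono.lt_iff_lt.1 hx2))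

lemma mH_aux (K : Type u) [LinearOrder K] (hK : ℵ₀ ≤ #K) (hI : ∀ a : K, #(Iio a) < #K) :
    ∃ H : Set K → K, ∀ B : Set K, #B = #K → ∀ c, ∃ s ⊆ B, #s = ℵ₀ ∧ H s = c := by
  classical
  haveI : Nonempty K := by
    rw [← mk_ne_zero_iff]
    intro h
    rw [h] at hK
    exact absurd hK (not_le.2 aleph0_pos)
  obtain ⟨F, A, hA, a, h⟩ := main_claim K
  have hA' : #(A ∩ Ioi a : Set K) = #K := by
    refine le_antisymm (mk_set_le _) ?_
    by_contra hlt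
    rw [not_le] at hlt
    have h1 : A ⊆ (A ∩ Ioi a) ∪ (Iio a ∪ {a}) := by
      intro x hx
      rcases lt_trichotomy x a with h | h | h
      · exact Or.inr (Or.inl h)
      · exact Or.inr (Or.inr h)
      · exact Or.inl ⟨hx, h⟩
    have h2 : #A ≤ #(A ∩ Ioi a : Set K) + (#(Iio a) + 1) := by
      refine (mk_le_mk_of_subset h1).trans ((mk_union_le _ _).trans (add_le_add_right ?_ _))
      refine (mk_union_le _ _).trans (add_le_add_right ?_ _)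
      rw [mk_singleton]
    have h3 : #(Iio a) + 1 < #K := add_lt_of_lt hK (hI a) (lt_of_lt_of_le one_lt_aleph0 hK)
    have h4 : #(A ∩ Ioi a : Set K) + (#(Iio a) + 1) < #K := add_lt_of_lt hK hlt h3
    rw [hA] at h2
    exact absurd h2 (not_le.2 h4)
  obtain ⟨j⟩ := Cardinal.eq.1 hA.symm
  obtain ⟨π⟩ := Cardinal.eq.1 hA'
  let J : K → K := fun x => (j x : K)
  have hJ : Function.Injective J := Subtype.val_injective.comp j.injective
  refine ⟨fun t => if ht : F (J '' t) ∈ A ∩ Ioi a then π ⟨_, ht⟩ else Classical.arbitrary K, ?_⟩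
  intro B hB c
  have hc := (π.symm c).2
  obtain ⟨s, hs, hs1, hs2⟩ := h (J '' B) (by rintro _ ⟨x, -, rfl⟩; exact (j x).2)
    (by rw [mk_image_eq hJ, hB]) _ hc.1 hc.2
  have e : J '' (J ⁻¹' s) = s := by
    rw [Set.image_preimage_eq_iff]
    exact hs.trans (Set.image_subset_range _ _)
  refine ⟨J ⁻¹' s, ?_, ?_, ?_⟩
  · intro x hx
    obtain ⟨x', hx', hxx⟩ := hs hx
    rwa [← hJ hxx]
  · rw [← mk_image_eq hJ, e, hs1]
  · have hm : F (J '' (J ⁻¹' s)) ∈ A ∩ Ioi a := by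
      rw [e, hs2]; exact hc
    simp only [dif_pos hm]
    have : (⟨F (J '' (J ⁻¹' s)), hm⟩ : (A ∩ Ioi a : Set K)) = π.symm c := by
      apply Subtype.ext
      show F (J '' (J ⁻¹' s)) = _
      rw [e, hs2]
    rw [this, Equiv.apply_symm_apply]

theorem mH : StH.{u} := by
  intro K hK
  have hc : #((#K).ord.ToType) = #K := mk_ord_toType _
  obtain ⟨e⟩ := Cardinal.eq.1 hc.symm
  obtain ⟨H, hH⟩ := mH_aux (#K).ord.ToType (by rw [hc]; exact hK)
    (fun a => by rw [hc]; exact mk_Iio_ord_toType a)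
  refine ⟨fun s => e.symm (H (e '' s)), ?_⟩
  intro B hB c
  obtain ⟨s, hs, hs1, hs2⟩ := hH (e '' B) (by rw [mk_image_eq e.injective, hB, hc]) (e c)
  refine ⟨e ⁻¹' s, ?_, ?_, ?_⟩
  · intro x hx
    obtain ⟨x', hx', hxx⟩ := hs hx
    rwa [← e.injective hxx]
  · have : e '' (e ⁻¹' s) = s := e.image_preimage s
    rw [← mk_image_eq e.injective, this, hs1]
  · simp only [e.image_preimage, hs2, Equiv.symm_apply_apply]

end Pool.Agent.Helper93.CK
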